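import Mathlib
import Pool.Agent.SRViol.Lang

/-!
# Approximating restricted-edge violations in stable roommates is as hard as minimum 2CNF deletion
-/

namespace Pool.Agent.Results.MP_f16758_lc.NoTwoApprox

open Pool.Agent.SRViol

/-- For every real `ρ ≥ 1`: if there is a polynomial-time `ρ`-approximation algorithm for the
minimum number of violated restricted-edge constraints of a stable matching, on the stable
roommates instances with `0 < |Q| < |M|` that admit a stable matching, then there is a
polynomial-time `ρ`-approximation algorithm for minimum 2CNF deletion. -/
theorem result (ρ : ℝ) (hρ : 1 ≤ ρ) (h : ∃ A, PolyTime A ∧ ApproxSR ρ A) :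
    ∃ B, PolyTime B ∧ Approx2CNFDel ρ B :=
  main ρ hρ h

end Pool.Agent.Results.MP_f16758_lc.NoTwoApprox
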